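import Pool.Agent.helper76.UFG.Spec

set_option autoImplicit false

namespace Pool.Agent.UFG

open Finset NumberField nonZeroDivisors Pool.Agent.UF

theorem FDS (hIN1 : IN1_stmt) (hPW2 : PW2_stmt) (hGEN : GEN_stmt) (hFAM : FAM_stmt) (hCOR : COR_stmt)
    (hCOM : COM_stmt) : FDS_stmt := by
  intro m n R _ _ y ρ hm hn hMn hy hρ hsemi
  have hnpos : 0 < n := Nat.pos_of_ne_zero hn
  obtain ⟨hprim, -, haut⟩ := id hy
  have hyn : y ^ n = 1 := hprim.pow_eq_one
  have hM : Even (2 ^ (m + 1)) := Even.pow_of_ne_zero even_two (Nat.succ_ne_zero m)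
  obtain ⟨k, σ, hfam⟩ := hFAM n (2 ^ (m + 1)) R y hn hM hy
  obtain ⟨i, hi⟩ := hCOR m n R y ρ hm hn hMn hy hρ hsemi k σ hfam
  refine ⟨i, ?_⟩
  -- `y ^ i` is a unit
  have hinv : y ^ ((n - 1) * i) * y ^ i = 1 := by
    rw [← pow_add]
    have h1 : (n - 1) * i + i = n * i := by
      obtain ⟨n', hn'⟩ := Nat.exists_eq_succ_of_ne_zero hn
      rw [hn', Nat.succ_sub_one, Nat.succ_eq_add_one]
      ring
    rw [h1, pow_mul, hyn, one_pow]
  set ρ' := y ^ i * ρ with hρ'
  have hρ'0 : ρ' ≠ 0 := by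
    intro h
    apply hρ
    have : y ^ ((n - 1) * i) * ρ' = ρ := by rw [hρ', ← mul_assoc, hinv, one_mul]
    rw [← this, h, mul_zero]
  -- `Semi` for `ρ'`
  have hsemi1 : ∀ (k' : ℕ) (s : R ≃+* R), s y = y ^ k' → k' ≡ 1 [MOD 2 ^ (m + 1)] →
      ∃ j : ℕ, s ρ' = y ^ j * ρ' := by
    intro k' s hs hk'
    obtain ⟨j, hj⟩ := hsemi.1 k' s hs hk'
    refine ⟨k' * i + j + (n - 1) * i, ?_⟩
    rw [hρ', map_mul, map_pow, hs, hj, ← pow_mul, ← mul_assoc, ← mul_assoc, ← pow_add, ← pow_add]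
    have h1 : k' * i + j + (n - 1) * i + i = (k' * i + j) + n * i := by
      obtain ⟨n', hn'⟩ := Nat.exists_eq_succ_of_ne_zero hn
      rw [hn', Nat.succ_sub_one, Nat.succ_eq_add_one]
      ring
    rw [h1, pow_add y (k' * i + j), pow_mul y n, hyn, one_pow, mul_one]
  have hsemi2 : ∀ p : ℕ, p.Prime → p ∣ n → ∃ P : Ideal R, P.IsPrime ∧ (p : R) ∈ P ∧ ρ' ∉ P := by
    intro p hp hpn
    obtain ⟨P, hP, hpP, hρP⟩ := hsemi.2 p hp hpn
    refine ⟨P, hP, hpP, fun h => hρP ?_⟩
    have : y ^ ((n - 1) * i) * ρ' = ρ := by rw [hρ', ← mul_assoc, hinv, one_mul]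
    rw [← this]
    exact P.mul_mem_left _ h
  -- the predicate
  let Q : ℕ → Prop := fun a => Nat.Coprime a n ∧ a ≡ 1 [MOD 2 ^ (m + 1)] ∧
    ∀ s : R ≃+* R, s y = y ^ a → s ρ' = ρ'
  have hQ1 : Q 1 := by
    refine ⟨Nat.coprime_one_left n, Nat.ModEq.refl 1, ?_⟩
    intro s hs
    have := CycN.ext hy (s : R →+* R) (RingHom.id R) (by rw [RingHom.coe_coe, hs, pow_one, RingHom.id_apply]) ρ'
    rwa [RingHom.coe_coe, RingHom.id_apply] at this
  have hQmul : ∀ a b, Q a → Q b → Q (a * b) := by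
    intro a b ha hb
    refine ⟨Nat.Coprime.mul_left ha.1 hb.1, ?_, ?_⟩
    · have := ha.2.1.mul hb.2.1
      rwa [one_mul] at this
    · intro s hs
      obtain ⟨s1, hs1⟩ := haut a ha.1
      obtain ⟨s2, hs2⟩ := haut b hb.1
      have h1 := CycN.ext hy (s : R →+* R) ((s2 : R →+* R).comp (s1 : R →+* R)) (by
        rw [RingHom.comp_apply, RingHom.coe_coe, RingHom.coe_coe, RingHom.coe_coe, hs, hs1, map_pow, hs2, ← pow_mul,
          mul_comm a b]) ρ'
      rw [RingHom.comp_apply, RingHom.coe_coe, RingHom.coe_coe, RingHom.coe_coe, ha.2.2 s1 hs1, hb.2.2 s2 hs2] at h1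
      exact h1
  have hQmod : ∀ a b, a ≡ b [MOD n] → Q a → Q b := by
    intro a b hab ha
    refine ⟨?_, ?_, ?_⟩
    · have := hab.gcd_eq
      have h2 := ha.1
      unfold Nat.Coprime at h2 ⊢
      rw [← this]
      exact h2
    · exact (hab.of_dvd hMn).symm.trans ha.2.1
    · intro s hs
      apply ha.2.2 s
      rw [hs]
      exact (pow_eq_pow_of_modEq hab hyn).symm
  intro k' s hs hk'
  have hcopk : Nat.Coprime k' n := by
    have h1 : IsPrimitiveRoot (s y) n := hprim.map_of_injective s.injective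
    rw [hs] at h1
    exact (hprim.pow_iff_coprime hnpos k').1 h1
  have hQk : Q k' := by
    refine hGEN n hn Q hQ1 hQmul hQmod k' ?_
    intro p hp a ha1 ha2
    have hpp : p.Prime := Nat.prime_of_mem_primeFactors hp
    have hpn : p ∣ n := Nat.dvd_of_mem_primeFactors hp
    have hsplit : n = p ^ n.factorization p * (n / p ^ n.factorization p) :=
      (Nat.ordProj_mul_ordCompl_eq_self n p).symm
    have hpn1 : ¬ p ∣ n / p ^ n.factorization p := Nat.not_dvd_ordCompl hpp hn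
    set e := n.factorization p with he
    set n₁ := n / p ^ e with hn₁
    have hcop : Nat.Coprime (p ^ e) n₁ := Nat.Coprime.pow_left _ ((hpp.coprime_iff_not_dvd).2 hpn1)
    have hacop : Nat.Coprime a n := by
      rw [hsplit]
      apply Nat.Coprime.mul_right
      · have h1 := ha1.gcd_eq
        have h2 : Nat.Coprime k' (p ^ e) := Nat.Coprime.coprime_dvd_right ⟨n₁, hsplit⟩ hcopk
        unfold Nat.Coprime at h2 ⊢
        rw [h1, h2]
      · have h1 := ha2.gcd_eq
        unfold Nat.Coprime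
        rw [h1, Nat.gcd_one_left]
    have ha1M : a ≡ 1 [MOD 2 ^ (m + 1)] := by
      by_cases hp2 : p = 2
      · have h1 : 2 ^ (m + 1) ∣ p ^ e := by
          rw [hp2, he, hp2]
          have h2 := (Nat.prime_two.pow_dvd_iff_le_factorization hn).1 hMn
          exact pow_dvd_pow 2 h2
        exact (ha1.of_dvd h1).trans hk'
      · have h1 : Nat.Coprime (2 ^ (m + 1)) (p ^ e) :=
          Nat.Coprime.pow _ _ ((Nat.coprime_primes Nat.prime_two hpp).2 (fun h => hp2 h.symm))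
        have h2 : 2 ^ (m + 1) ∣ n₁ := by
          rw [hsplit] at hMn
          exact h1.dvd_of_dvd_mul_left hMn
        exact ha2.of_dvd h2
    refine ⟨hacop, ha1M, ?_⟩
    intro s' hs'
    obtain ⟨f1, f2, f3, f4⟩ := hfam p hp
    by_cases hp2 : p = 2
    · -- `p = 2`
      have hme : m + 1 ≤ e := by
        have h2 := (Nat.prime_two.pow_dvd_iff_le_factorization hn).1 hMn
        rw [he, hp2]
        exact h2
      obtain ⟨l, hl⟩ := hPW2 m e a hm hme ha1M
      have hpe : p ^ e = 2 ^ e := by rw [hp2]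
      have hk2 : k p ≡ 1 + 2 ^ (m + 1) [MOD p ^ e] := f4 hp2
      have h1 : a ≡ (k p) ^ l [MOD p ^ e] := by
        rw [← hpe] at hl
        exact hl.trans (hk2.pow l).symm
      have h2 : a ≡ (k p) ^ l [MOD n₁] := by
        have h3 := f2.pow l
        rw [one_pow] at h3
        exact ha2.trans h3.symm
      have h3 : a ≡ (k p) ^ l [MOD n] := by
        rw [hsplit]
        exact (Nat.modEq_and_modEq_iff_modEq_mul hcop).1 ⟨h1, h2⟩
      have hiter : ∀ l : ℕ, ∃ f : R →+* R, f y = y ^ ((k p) ^ l) ∧ f ρ' = ρ' := by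
        intro l
        induction l with
        | zero => exact ⟨RingHom.id R, by simp, by simp⟩
        | succ l ih =>
          obtain ⟨f, g1, g2⟩ := ih
          refine ⟨((σ p) : R →+* R).comp f, ?_, ?_⟩
          · rw [RingHom.comp_apply, g1, RingHom.coe_coe, map_pow, f1, ← pow_mul, pow_succ, mul_comm]
          · rw [RingHom.comp_apply, g2, RingHom.coe_coe]
            exact hi p hp
      obtain ⟨f, g1, g2⟩ := hiter l
      have h4 := CycN.ext hy (s' : R →+* R) f (by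
        rw [RingHom.coe_coe, hs', g1]
        exact pow_eq_pow_of_modEq h3 hyn) ρ'
      rw [RingHom.coe_coe, g2] at h4
      exact h4
    · -- `p` odd
      obtain ⟨j, hj⟩ := hsemi1 a s' hs' ha1M
      obtain ⟨P, hP, hpP, hρP⟩ := hsemi2 p hpp hpn
      have h1 := hIN1 n p e n₁ R y hn hy hpp hsplit hpn1 P hP hpP ρ' hρP a s' hs' ha2 j hj
      have h2 := hCOM m n R y ρ' hn hMn hy hρ'0 k σ hfam hi a s' j hs' hj
      have hcop2 : Nat.Coprime (p ^ e) (2 ^ (m + 1)) :=
        Nat.Coprime.pow _ _ ((Nat.coprime_primes hpp Nat.prime_two).2 hp2)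
      have h3 : y ^ j = 1 := by
        rw [← orderOf_dvd_iff_pow_eq_one] at h1 h2
        rw [← orderOf_eq_one_iff]
        exact Nat.eq_one_of_dvd_coprimes hcop2 h1 h2
      rw [hj, h3, one_mul]
  exact hQk.2.2 s hs

end Pool.Agent.UFG
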