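import Pool.Agent.helper76.UFG.Spec

set_option autoImplicit false

namespace Pool.Agent.UFG

open Finset NumberField nonZeroDivisors Pool.Agent.UF

/-- a root of unity of order prime to `p`, congruent to `1` modulo a prime ideal above `p`, is `1` -/
theorem IN1_one (p n₁ : ℕ) (hp : p.Prime) (R : Type) [CommRing R] [IsDomain R] (P : Ideal R) (hP : P.IsPrime)
    (hpP : (p : R) ∈ P) (hn : ¬ p ∣ n₁) (ω : R) (h1 : ω ^ n₁ = 1) (h2 : ω - 1 ∈ P) : ω = 1 := by
  by_contra hne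
  have hn0 : n₁ ≠ 0 := by
    rintro rfl
    exact hn (dvd_zero p)
  have hprim := IsPrimitiveRoot.orderOf ω
  have hd : orderOf ω ∣ n₁ := orderOf_dvd_of_pow_eq_one h1
  have hd0 : orderOf ω ≠ 0 := fun h => hn0 (by rw [h] at hd; exact Nat.eq_zero_of_zero_dvd hd)
  obtain ⟨d, hdd⟩ := Nat.exists_eq_succ_of_ne_zero hd0
  have hd1 : d ≠ 0 := by
    rintro rfl
    apply hne
    rw [← orderOf_eq_one_iff]
    exact hdd
  rw [hdd] at hprim
  have hprod := hprim.prod_one_sub_pow_eq_order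
  have hdvd : (1 - ω) ∣ ((orderOf ω : ℕ) : R) := by
    have h0 : (1 - ω ^ (0 + 1)) ∣ ∏ k ∈ range d, (1 - ω ^ (k + 1)) :=
      Finset.dvd_prod_of_mem (fun k => 1 - ω ^ (k + 1)) (Finset.mem_range.2 (Nat.pos_of_ne_zero hd1))
    rw [hprod, zero_add, pow_one] at h0
    rw [hdd]
    push_cast
    exact h0
  have h3 : (1 - ω) ∈ P := by
    have := P.neg_mem h2
    rwa [neg_sub] at this
  have h4 : ((orderOf ω : ℕ) : R) ∈ P := by
    obtain ⟨c, hc⟩ := hdvd
    rw [hc]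
    exact P.mul_mem_right c h3
  have hcop : Nat.Coprime (orderOf ω) p := by
    rw [Nat.coprime_comm, hp.coprime_iff_not_dvd]
    exact fun h => hn (h.trans hd)
  have h5 : (1 : R) ∈ P := by
    have hbez := Nat.gcd_eq_gcd_ab (orderOf ω) p
    rw [hcop] at hbez
    have h6 : (1 : R) = ((orderOf ω : ℕ) : R) * ((Nat.gcdA (orderOf ω) p : ℤ) : R)
        + (p : R) * ((Nat.gcdB (orderOf ω) p : ℤ) : R) := by
      have := congrArg (fun z : ℤ => (z : R)) hbez
      push_cast at this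
      exact this
    rw [h6]
    exact P.add_mem (P.mul_mem_right _ h4) (P.mul_mem_right _ hpP)
  exact hP.ne_top ((Ideal.eq_top_iff_one P).2 h5)

theorem IN1 : IN1_stmt := by
  intro n p e n₁ R _ _ y hn hy hp hnp hpn₁ P hP hpP ρ hρ k s hs hk j hsρ
  obtain ⟨hprim, -, -⟩ := id hy
  have hyn : y ^ n = 1 := hprim.pow_eq_one
  have hnpos : 0 < n := Nat.pos_of_ne_zero hn
  have hinv : y ^ (n - 1) * y = 1 := by
    rw [← pow_succ, Nat.sub_add_cancel hnpos, hyn]
  -- `w`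
  have hw : (y ^ k * y ^ (n - 1)) ^ p ^ e = 1 := by
    have h0 : n₁ ∣ k + (n - 1) := by
      have h1 : k + (n - 1) + 1 ≡ 0 + 1 [MOD n₁] := by
        have h2 : k + (n - 1) + 1 = k + n := by omega
        rw [h2]
        have h3 : n ≡ 0 [MOD n₁] := (Nat.modEq_zero_iff_dvd).2 ⟨p ^ e, by rw [hnp, mul_comm]⟩
        have := hk.add h3
        simpa using this
      exact (Nat.modEq_zero_iff_dvd).1 (Nat.ModEq.add_right_cancel' 1 h1)
    obtain ⟨c, hc⟩ := h0
    rw [← pow_add, ← pow_mul, hc]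
    have h1 : n₁ * c * p ^ e = n * c := by rw [hnp]; ring
    rw [h1, pow_mul, hyn, one_pow]
  have : Fact p.Prime := ⟨hp⟩
  have hmk0 : ((p : ℕ) : R ⧸ P) = 0 := by
    have h := Ideal.Quotient.eq_zero_iff_mem.2 hpP
    rwa [map_natCast] at h
  have : CharP (R ⧸ P) p := (CharP.charP_iff_prime_eq_zero hp).2 hmk0
  have hw1 : Ideal.Quotient.mk P (y ^ k * y ^ (n - 1)) = 1 := by
    have h1 : (Ideal.Quotient.mk P (y ^ k * y ^ (n - 1)) - 1) ^ p ^ e = 0 := by
      rw [sub_pow_char_pow, ← map_pow, hw, map_one, one_pow, sub_self]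
    exact sub_eq_zero.1 (pow_eq_zero_iff (pow_ne_zero e hp.ne_zero) |>.1 h1)
  have hsy : Ideal.Quotient.mk P (s y) = Ideal.Quotient.mk P y := by
    have : s y = (y ^ k * y ^ (n - 1)) * y := by
      rw [mul_assoc, hinv, mul_one, hs]
    rw [this, map_mul, hw1, one_mul]
  have hall : ∀ a : R, Ideal.Quotient.mk P (s a) = Ideal.Quotient.mk P a :=
    CycN.ext hy ((Ideal.Quotient.mk P).comp (s : R →+* R)) (Ideal.Quotient.mk P) hsy
  have hyj : y ^ j - 1 ∈ P := by
    have h1 := hall ρ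
    rw [hsρ, Ideal.Quotient.eq] at h1
    have h2 : (y ^ j - 1) * ρ ∈ P := by
      rwa [sub_mul, one_mul]
    exact (hP.mem_or_mem h2).resolve_right hρ
  have hω1 : (y ^ j) ^ p ^ e - 1 ∈ P := by
    have h1 : Ideal.Quotient.mk P (y ^ j) = 1 := by
      rw [← map_one (Ideal.Quotient.mk P), Ideal.Quotient.eq]
      exact hyj
    rw [← Ideal.Quotient.eq, map_pow, h1, one_pow, map_one]
  refine IN1_one p n₁ hp R P hP hpP hpn₁ _ ?_ hω1
  have h1 : j * (p ^ e * n₁) = n * j := by rw [hnp]; ring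
  rw [← pow_mul, ← pow_mul, h1, pow_mul, hyn, one_pow]

end Pool.Agent.UFG
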