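import Pool.Agent.helper76.UFG.Spec

set_option autoImplicit false

namespace Pool.Agent.UFG

open Finset NumberField nonZeroDivisors Pool.Agent.UF

/-- `(1 + 2^(m+1))^(2^t) = 1 + 2^(m+1+t) * odd` -/
theorem PW2_pow (m : ℕ) (hm : 1 ≤ m) (t : ℕ) :
    ∃ c : ℤ, ((1 : ℤ) + 2 ^ (m + 1)) ^ 2 ^ t = 1 + 2 ^ (m + 1 + t) * (1 + 2 * c) := by
  obtain ⟨m', rfl⟩ := Nat.exists_eq_add_of_le hm
  induction t with
  | zero => exact ⟨0, by simp⟩
  | succ t ih =>
    obtain ⟨c, hc⟩ := ih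
    refine ⟨c + 2 ^ (m' + t) * (1 + 2 * c) ^ 2, ?_⟩
    rw [pow_succ 2 t, pow_mul, hc]
    ring

theorem PW2 : PW2_stmt := by
  intro m e k hm he hk
  have hk' : (2 : ℤ) ^ (m + 1) ∣ (k : ℤ) - 1 := by
    have := (Nat.modEq_iff_dvd.1 hk.symm)
    push_cast at this
    exact this
  have key : ∀ d, ∃ j : ℕ, (2 : ℤ) ^ (m + 1 + d) ∣ (k : ℤ) - (1 + 2 ^ (m + 1)) ^ j := by
    intro d
    induction d with
    | zero => exact ⟨0, by simpa using hk'⟩
    | succ d ih =>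
      obtain ⟨j, x, hx⟩ := ih
      rcases Int.even_or_odd' x with ⟨x', hx' | hx'⟩
      · refine ⟨j, x', ?_⟩
        rw [hx, hx']
        ring
      · obtain ⟨c, hc⟩ := PW2_pow m hm d
        have hodd : Odd (((1 : ℤ) + 2 ^ (m + 1)) ^ j) := by
          apply Odd.pow
          rw [add_comm]
          exact (Even.pow_of_ne_zero even_two (Nat.succ_ne_zero m)).add_one
        obtain ⟨b, hb⟩ := hodd
        refine ⟨j + 2 ^ d, x' - b - c - 2 * b * c, ?_⟩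
        rw [pow_add, hc]
        have : (k : ℤ) = 2 ^ (m + 1 + d) * x + (1 + 2 ^ (m + 1)) ^ j := by linarith
        rw [this, hx', hb]
        ring
  obtain ⟨d, rfl⟩ := Nat.exists_eq_add_of_le he
  obtain ⟨j, hj⟩ := key d
  refine ⟨j, (Nat.modEq_iff_dvd.2 ?_).symm⟩
  push_cast
  exact hj

end Pool.Agent.UFG
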