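import Pool.Agent.helper76.UFG.Spec

set_option autoImplicit false

namespace Pool.Agent.UFG

open Finset NumberField nonZeroDivisors Pool.Agent.UF

/-- `(1 + 2^(m+1))^(2^t) = 1 + 2^(m+1+t) * c` -/
theorem TW2_pow (m : ℕ) (t : ℕ) (hm : 1 ≤ m) :
    (1 + 2 ^ (m + 1)) ^ 2 ^ t ≡ 1 [MOD 2 ^ (m + 1 + t)] := by
  have h : ∃ c : ℤ, ((1 : ℤ) + 2 ^ (m + 1)) ^ 2 ^ t = 1 + 2 ^ (m + 1 + t) * c := by
    obtain ⟨m', rfl⟩ := Nat.exists_eq_add_of_le hm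
    induction t with
    | zero => exact ⟨1, by simp⟩
    | succ t ih =>
      obtain ⟨c, hc⟩ := ih
      refine ⟨c + 2 ^ (m' + 1 + t) * c ^ 2, ?_⟩
      rw [pow_succ 2 t, pow_mul, hc]
      ring
  obtain ⟨c, hc⟩ := h
  refine (Nat.modEq_iff_dvd.2 ?_).symm
  push_cast
  exact ⟨c, by rw [hc]; ring⟩

/-- `1 + k + ... + k^(2^t - 1) = 2^t * odd` for `k = 1` modulo `4` -/
theorem TW2_sum (k : ℕ) (hk : k ≡ 1 [MOD 4]) (t : ℕ) :
    ∃ c : ℕ, ∑ i ∈ range (2 ^ t), k ^ i = 2 ^ t * (2 * c + 1) := by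
  induction t with
  | zero => exact ⟨0, by simp⟩
  | succ t ih =>
    obtain ⟨c, hc⟩ := ih
    have h1 : ∑ i ∈ range (2 ^ (t + 1)), k ^ i = (∑ i ∈ range (2 ^ t), k ^ i) * (1 + k ^ 2 ^ t) := by
      rw [pow_succ, mul_two, Finset.sum_range_add, mul_add, mul_one, Finset.sum_mul]
      congr 1
      apply Finset.sum_congr rfl
      intro i _
      rw [pow_add, mul_comm]
    have h2 : k ^ 2 ^ t ≡ 1 [MOD 4] := by
      have := hk.pow (2 ^ t)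
      rwa [one_pow] at this
    have h3 : ∃ d, k ^ 2 ^ t = 4 * d + 1 := by
      refine ⟨k ^ 2 ^ t / 4, ?_⟩
      have h4 : k ^ 2 ^ t % 4 = 1 := h2
      omega
    obtain ⟨d, hd⟩ := h3
    refine ⟨c + d + 2 * c * d, ?_⟩
    rw [h1, hc, hd]
    ring

theorem TW2 : TW2_stmt := by
  intro m e n₁ k j R _ _ y ρ s hm he hn₁ hy hρ hs hk2 hk1 hsρ hω
  obtain ⟨hprim, -, -⟩ := id hy
  have hyn : y ^ (2 ^ e * n₁) = 1 := hprim.pow_eq_one
  obtain ⟨t, rfl⟩ := Nat.exists_eq_add_of_le he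
  -- iteration
  have hit : ∀ q : ℕ, ∃ f : R →+* R, f y = y ^ (k ^ q) ∧ f ρ = (y ^ j) ^ (∑ i ∈ range q, k ^ i) * ρ := by
    intro q
    induction q with
    | zero => exact ⟨RingHom.id R, by simp, by simp⟩
    | succ q ih =>
      obtain ⟨f, hf1, hf2⟩ := ih
      refine ⟨(s : R →+* R).comp f, ?_, ?_⟩
      · rw [RingHom.comp_apply, hf1, RingHom.coe_coe, map_pow, hs, ← pow_mul, pow_succ, mul_comm]
      · rw [RingHom.comp_apply, hf2, RingHom.coe_coe, map_mul, map_pow, map_pow, hs, hsρ, geom_sum_succ]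
        generalize ∑ i ∈ range q, k ^ i = S
        have e1 : ((y ^ k) ^ j) ^ S = (y ^ j) ^ (k * S) := by
          rw [← pow_mul, ← pow_mul, ← pow_mul, mul_left_comm]
        rw [e1, pow_add, pow_one, mul_assoc]
  have hk4 : k ≡ 1 [MOD 4] := by
    have h1 : 4 ∣ 2 ^ (m + 1 + t) := by
      have : (4 : ℕ) = 2 ^ 2 := by norm_num
      rw [this]
      exact pow_dvd_pow 2 (by omega)
    have h2 : 1 + 2 ^ (m + 1) ≡ 1 [MOD 4] := by
      have h3 : 4 ∣ 2 ^ (m + 1) := by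
        have : (4 : ℕ) = 2 ^ 2 := by norm_num
        rw [this]
        exact pow_dvd_pow 2 (by omega)
      have h4 : 2 ^ (m + 1) ≡ 0 [MOD 4] := (Nat.modEq_zero_iff_dvd).2 h3
      have := h4.add_left 1
      simpa using this
    exact (hk2.of_dvd h1).trans h2
  have hq1 : k ^ 2 ^ t ≡ 1 [MOD 2 ^ (m + 1 + t)] := (hk2.pow (2 ^ t)).trans (TW2_pow m t hm)
  have hq2 : k ^ 2 ^ t ≡ 1 [MOD n₁] := by
    have := hk1.pow (2 ^ t)
    rwa [one_pow] at this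
  have hcop : Nat.Coprime (2 ^ (m + 1 + t)) n₁ :=
    Nat.Coprime.pow_left _ (Nat.coprime_two_left.2 hn₁)
  have hq : k ^ 2 ^ t ≡ 1 [MOD 2 ^ (m + 1 + t) * n₁] :=
    (Nat.modEq_and_modEq_iff_modEq_mul hcop).1 ⟨hq1, hq2⟩
  obtain ⟨f, hf1, hf2⟩ := hit (2 ^ t)
  have hfy : f y = RingHom.id R y := by
    rw [hf1, RingHom.id_apply]
    have := pow_eq_pow_of_modEq hq hyn
    rw [this, pow_one]
  have hfρ := CycN.ext hy f (RingHom.id R) hfy ρ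
  rw [hf2, RingHom.id_apply] at hfρ
  have hS : (y ^ j) ^ (∑ i ∈ range (2 ^ t), k ^ i) = 1 :=
    mul_right_cancel₀ hρ (by rw [hfρ, one_mul])
  obtain ⟨c, hc⟩ := TW2_sum k hk4 t
  rw [hc] at hS
  -- the order of `ω`
  have hω2 : (y ^ j) ^ 2 ^ t = 1 := by
    rw [← orderOf_dvd_iff_pow_eq_one] at hS hω ⊢
    refine Nat.Coprime.dvd_of_dvd_mul_right ?_ hS
    have h1 : Nat.Coprime (2 ^ (m + 1 + t)) (2 * c + 1) :=
      Nat.Coprime.pow_left _ (by rw [Nat.coprime_two_left]; exact ⟨c, rfl⟩)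
    exact Nat.Coprime.coprime_dvd_left hω h1
  -- the primitive root `η`
  have hη : IsPrimitiveRoot (y ^ n₁) (2 ^ (m + 1 + t)) :=
    hprim.pow (Nat.mul_pos (pow_pos two_pos _) hn₁.pos) (mul_comm _ _)
  obtain ⟨l, -, hl⟩ := hη.eq_pow_of_pow_eq_one hω
  have hdvd : 2 ^ (m + 1 + t) ∣ l * 2 ^ t := by
    rw [← hη.pow_eq_one_iff_dvd, pow_mul, hl, hω2]
  have hl2 : 2 ^ (m + 1) ∣ l := by
    rw [pow_add] at hdvd
    exact Nat.dvd_of_mul_dvd_mul_right (pow_pos two_pos t) hdvd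
  obtain ⟨l', rfl⟩ := hl2
  set n := 2 ^ (m + 1 + t) * n₁ with hn
  have hnpos : 0 < n := Nat.mul_pos (pow_pos two_pos _) hn₁.pos
  have hinv : y ^ ((n - 1) * n₁ * l') * (y ^ n₁) ^ l' = 1 := by
    rw [← pow_mul, ← pow_add]
    have : (n - 1) * n₁ * l' + n₁ * l' = n * (n₁ * l') := by
      obtain ⟨n', hn'⟩ := Nat.exists_eq_succ_of_ne_zero hnpos.ne'
      rw [hn', Nat.succ_sub_one, Nat.succ_eq_add_one]
      ring
    rw [this, pow_mul, hyn, one_pow]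
  have hu : (y ^ ((n - 1) * n₁ * l')) ^ 2 ^ (m + 1 + t) = 1 := by
    rw [← pow_mul]
    have : (n - 1) * n₁ * l' * 2 ^ (m + 1 + t) = n * ((n - 1) * l') := by
      rw [hn]; ring
    rw [this, pow_mul, hyn, one_pow]
  refine ⟨(n - 1) * n₁ * l', hu, ?_⟩
  set u := y ^ ((n - 1) * n₁ * l') with hudef
  have h1 : s u = u ^ k := by
    rw [hudef, map_pow, hs, ← pow_mul, ← pow_mul, mul_comm]
  have h2 : u ^ k = u ^ (1 + 2 ^ (m + 1)) := pow_eq_pow_of_modEq hk2 hu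
  rw [map_mul, h1, h2, hsρ, ← hl]
  have h3 : u ^ (1 + 2 ^ (m + 1)) * ((y ^ n₁) ^ (2 ^ (m + 1) * l') * ρ)
      = u * (u * (y ^ n₁) ^ l') ^ 2 ^ (m + 1) * ρ := by
    rw [mul_pow, pow_add, pow_one, mul_comm (2 ^ (m + 1)) l', pow_mul (y ^ n₁)]
    ring
  rw [h3, hinv, one_pow, mul_one]

end Pool.Agent.UFG
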